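import Mathlib
import Pool.Agent.W289.CG.Stm

set_option autoImplicit false
set_option linter.unusedVariables false

namespace Pool.Agent.W930.CG

open Polynomial NumberField nonZeroDivisors Pool.Agent.W289.CG

/-- the projection to the class group -/
noncomputable def pi (K : Type) [Field K] [NumberField K] :
    (FractionalIdeal (𝓞 K)⁰ K)ˣ →* ClassGroup (𝓞 K) :=
  (ClassGroup.equiv (R := 𝓞 K) K).symm.toMonoidHom.comp (QuotientGroup.mk' _)

lemma pi_eq_one {K : Type} [Field K] [NumberField K] {I : (FractionalIdeal (𝓞 K)⁰ K)ˣ} :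
    pi K I = 1 ↔ ∃ α : Kˣ, toPrincipalIdeal (𝓞 K) K α = I := by
  unfold pi
  rw [MonoidHom.comp_apply]
  change (ClassGroup.equiv (R := 𝓞 K) K).symm _ = 1 ↔ _
  rw [EmbeddingLike.map_eq_one_iff, QuotientGroup.mk'_apply, QuotientGroup.eq_one_iff,
    MonoidHom.mem_range]

lemma unit_of_toPrincipal {K : Type} [Field K] [NumberField K] {x : Kˣ}
    (h : toPrincipalIdeal (𝓞 K) K x = 1) :
    ∃ u : (𝓞 K)ˣ, Units.map (algebraMap (𝓞 K) K).toMonoidHom u = x := by
  have key : ∀ x : Kˣ, toPrincipalIdeal (𝓞 K) K x = 1 → ∃ a : 𝓞 K, algebraMap (𝓞 K) K a = x := by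
    intro x h
    rw [toPrincipalIdeal_eq_iff, Units.val_one] at h
    have h1 : (x : K) ∈ (1 : FractionalIdeal (𝓞 K)⁰ K) := by
      rw [← h]
      exact FractionalIdeal.mem_spanSingleton_self _ _
    rw [FractionalIdeal.mem_one_iff] at h1
    exact h1
  obtain ⟨a, ha⟩ := key x h
  obtain ⟨b, hb⟩ := key x⁻¹ (by rw [map_inv, h, inv_one])
  have hab : a * b = 1 := by
    apply FaithfulSMul.algebraMap_injective (𝓞 K) K
    rw [map_mul, ha, hb, map_one, ← Units.val_mul, mul_inv_cancel, Units.val_one]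
  refine ⟨⟨a, b, hab, by rw [mul_comm, hab]⟩, ?_⟩
  apply Units.ext
  exact ha

theorem cls (hG : TaskGrp) (hU : TaskUni) : TaskCls := by
  intro K _ _ N m R hm hR g hI hind hroot
  choose I hI using hI
  refine hG (ClassGroup (𝓞 K)) N m (Units.rank K) R hm hR (fun i => pi K (I i)) ?_ ?_
  · intro i
    rw [← map_pow, hI, pi_eq_one]
    exact ⟨_, rfl⟩
  · intro ℓ hℓ hℓm
    have : Fact ℓ.Prime := ⟨hℓ⟩
    obtain ⟨hr1, hr2⟩ := hroot ℓ hℓ hℓm
    set ι : (𝓞 K)ˣ →* Kˣ := Units.map (algebraMap (𝓞 K) K).toMonoidHom with hι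
    have hmul : m / ℓ * ℓ = m := Nat.div_mul_cancel hℓm
    have key : ∀ e : Fin N → ZMod ℓ, ∏ i, pi K (I i) ^ ((m / ℓ) * (e i).val) = 1 →
        ∃ (r : Fin (Units.rank K) → Fin ℓ) (w : Kˣ),
          ∏ i, g i ^ (e i).val = ι (∏ i, Units.fundSystem K i ^ (r i : ℕ)) * w ^ ℓ ∨
          ∏ i, g i ^ (e i).val = - (ι (∏ i, Units.fundSystem K i ^ (r i : ℕ)) * w ^ ℓ) := by
      intro e he
      have h1 : pi K (∏ i, I i ^ ((m / ℓ) * (e i).val)) = 1 := by
        rw [map_prod, ← he]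
        exact Finset.prod_congr rfl fun i _ => map_pow _ _ _
      obtain ⟨α, hα⟩ := pi_eq_one.1 h1
      have h2 : toPrincipalIdeal (𝓞 K) K (∏ i, g i ^ (e i).val) =
          toPrincipalIdeal (𝓞 K) K (α ^ ℓ) := by
        rw [map_pow, hα, map_prod, ← Finset.prod_pow]
        refine Finset.prod_congr rfl fun i _ => ?_
        rw [map_pow, ← hI, ← pow_mul, ← pow_mul]
        congr 1
        calc m * (e i).val = (m / ℓ * ℓ) * (e i).val := by rw [hmul]
          _ = _ := by ring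
      have h3 : toPrincipalIdeal (𝓞 K) K ((∏ i, g i ^ (e i).val) * (α ^ ℓ)⁻¹) = 1 := by
        rw [map_mul, map_inv, h2, mul_inv_cancel]
      obtain ⟨u, hu⟩ := unit_of_toPrincipal h3
      have h4 : ∏ i, g i ^ (e i).val = ι u * α ^ ℓ := by
        rw [hι, hu, inv_mul_cancel_right]
      obtain ⟨r, v, h5 | h5⟩ := hU K ℓ hℓ hr1 hr2 u
      · refine ⟨r, ι v * α, Or.inl ?_⟩
        rw [h4, h5, map_mul, map_pow, mul_pow, mul_assoc]
      · refine ⟨r, ι v * α, Or.inr ?_⟩
        have hneg : ∀ z : (𝓞 K)ˣ, ι (-z) = - ι z := by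
          intro z
          apply Units.ext
          rw [hι]
          simp
        rw [h4, h5, hneg, map_mul, map_pow, mul_pow, neg_mul, mul_assoc]
    classical
    choose! r w hrw using key
    have hinj : Set.InjOn r {e : Fin N → ZMod ℓ | ∏ i, pi K (I i) ^ ((m / ℓ) * (e i).val) = 1} := by
      intro e he e' he' hr
      have h1 := hrw e he
      have h2 := hrw e' he'
      rw [hr] at h1
      set F := ι (∏ i, Units.fundSystem K i ^ (r e' i : ℕ)) with hF
      have h3 : ∏ i, g i ^ (((e i).val : ℤ) - ((e' i).val : ℤ)) =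
          (∏ i, g i ^ (e i).val) * (∏ i, g i ^ (e' i).val)⁻¹ := by
        rw [← Finset.prod_inv_distrib, ← Finset.prod_mul_distrib]
        refine Finset.prod_congr rfl fun i _ => ?_
        rw [zpow_sub, zpow_natCast, zpow_natCast]
      have h4 := hind ℓ hℓ hℓm (fun i => ((e i).val : ℤ) - ((e' i).val : ℤ)) (w e * (w e')⁻¹) (by
        rw [h3, mul_pow, inv_pow]
        rcases h1 with h1 | h1 <;> rcases h2 with h2 | h2 <;> rw [h1, h2]
        · left
          rw [mul_inv]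
          rw [show F * w e ^ ℓ * (F⁻¹ * (w e' ^ ℓ)⁻¹) = (F * F⁻¹) * (w e ^ ℓ * (w e' ^ ℓ)⁻¹) by
            rw [mul_mul_mul_comm], mul_inv_cancel, one_mul]
        · right
          rw [inv_neg, mul_neg, mul_inv]
          rw [show F * w e ^ ℓ * (F⁻¹ * (w e' ^ ℓ)⁻¹) = (F * F⁻¹) * (w e ^ ℓ * (w e' ^ ℓ)⁻¹) by
            rw [mul_mul_mul_comm], mul_inv_cancel, one_mul]
        · right
          rw [neg_mul, mul_inv]
          rw [show F * w e ^ ℓ * (F⁻¹ * (w e' ^ ℓ)⁻¹) = (F * F⁻¹) * (w e ^ ℓ * (w e' ^ ℓ)⁻¹) by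
            rw [mul_mul_mul_comm], mul_inv_cancel, one_mul]
        · left
          rw [inv_neg, neg_mul_neg, mul_inv]
          rw [show F * w e ^ ℓ * (F⁻¹ * (w e' ^ ℓ)⁻¹) = (F * F⁻¹) * (w e ^ ℓ * (w e' ^ ℓ)⁻¹) by
            rw [mul_mul_mul_comm], mul_inv_cancel, one_mul])
      funext i
      have h5 := h4 i
      have h6 : (((e i).val : ℤ) : ZMod ℓ) = (((e' i).val : ℤ) : ZMod ℓ) := by
        rw [← sub_eq_zero, ← Int.cast_sub]
        exact (ZMod.intCast_zmod_eq_zero_iff_dvd _ _).2 h5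
      simpa using h6
    have h7 := Set.ncard_le_ncard_of_injOn (s := {e : Fin N → ZMod ℓ |
      ∏ i, pi K (I i) ^ ((m / ℓ) * (e i).val) = 1}) (t := Set.univ) r (fun _ _ => Set.mem_univ _)
      hinj Set.finite_univ
    rw [Set.ncard_univ, Nat.card_eq_fintype_card, Fintype.card_fun, Fintype.card_fin,
      Fintype.card_fin] at h7
    exact h7

end Pool.Agent.W930.CG
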